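import Pool.Agent.H.MP_cbd396_lc.B

namespace Pool.Agent.Results.MP_cbd396_lc.No

open Finset Pool.Agent.H.MP_cbd396_lc

theorem result (C : ℕ) : ∃ (V ι : Type) (_ : Finite V) (_ : Fintype ι) (E : V → V → Prop) (s t : ι → V) (r : ℝ),
    (∀ v, ¬Relation.TransGen E v v) ∧
    (∀ (A : Type) [Fintype A] (b : ℕ) (a : ι → ℕ), 2 ≤ Fintype.card A → 1 ≤ b → Solution E s t A b a →
      (∑ i, a i : ℝ) / b ≤ r) ∧
    ∀ M : Finset (V × V), Multicut E s t M → C * r < #M := by
  classical
  obtain ⟨V, _, R, K, rk, w, h⟩ := exists_good (2 * C * (C + 1))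
  refine ⟨Nd R C w, Pr R C, inferInstance, inferInstance, Ed R C w, fun p => .inl (.inl p), fun p => .inl (.inr p),
    (∑ v, w v : ℕ) / (C + 1), fun v q => ?_, fun A _ b a hA hb H => ?_, fun M hM => ?_⟩
  · have : ∀ a b, Relation.TransGen (Ed R C w) a b → ρ K rk a < ρ K rk b := fun a b q => by
      induction q with
      | single e => exact h.rho _ _ e
      | tail _ e ih => exact ih.trans (h.rho _ _ e)
    exact (this v v q).false
  · rw [div_le_div_iff₀ (by positivity) (by positivity), mul_comm]
    exact_mod_cast h.rate hA H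
  · have a := h.mc M hM
    have b := h.pos
    generalize ∑ v, w v = W at *
    rw [← mul_div_assoc, div_lt_iff₀ (by positivity)]
    have : C * W < #M * (C + 1) := by
      refine lt_of_mul_lt_mul_left (a := 2 * C * (C + 1) + 2) ?_ (by omega)
      nlinarith [Nat.mul_le_mul_right (C + 1) a]
    exact_mod_cast this

end Pool.Agent.Results.MP_cbd396_lc.No
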